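import Pool.Agent.DAng.Final

/-!
# D'Angelo's conjecture: commutator type equals Levi form type

Statement in a chart: everything lives on an open set `U ⊆ ℝ^{2n+1}` (all notions involved are
local and invariant under diffeomorphisms, so this is the general case).  Complexified vector
fields are given by their complex coefficient functions.
-/

open scoped ContDiff

namespace Pool.Agent.Results.MP_1b6414_an.TypesAgree

/-- complex vector fields `∑ X_i ∂/∂x_i` on (open subsets of) `ℝ^d` -/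
abbrev VField (d : ℕ) := (Fin d → ℝ) → Fin d → ℂ

/-- the derivative `X f` of a complex valued function along a complex vector field -/
noncomputable def der {d : ℕ} (X : VField d) (f : (Fin d → ℝ) → ℂ) : (Fin d → ℝ) → ℂ :=
  fun x => ∑ i, X x i * fderiv ℝ f x (Pi.single i 1)

/-- the Lie bracket `[X, Y]` -/
noncomputable def bracket {d : ℕ} (X Y : VField d) : VField d :=
  fun x i => der X (fun y => Y y i) x - der Y (fun y => X y i) x

/-- the conjugate field `X̄` -/
noncomputable def conjField {d : ℕ} (X : VField d) : VField d := fun x i => (starRingEnd ℂ) (X x i)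

/-- the value `⟨η, X⟩` of a real one form `η = ∑ η_i dx_i` on a complex vector field -/
noncomputable def pairing {d : ℕ} (η : (Fin d → ℝ) → Fin d → ℝ) (X : VField d) :
    (Fin d → ℝ) → ℂ := fun x => ∑ i, (η x i : ℂ) * X x i

/-- `X` is a smooth section of `T10` over `V` (a smooth (1,0) vector field on `V`) -/
def IsField10 {d : ℕ} (T10 : (Fin d → ℝ) → Submodule ℂ (Fin d → ℂ)) (V : Set (Fin d → ℝ))
    (X : VField d) : Prop :=
  ContDiffOn ℝ ∞ X V ∧ ∀ x ∈ V, X x ∈ T10 x

/-- `T10` is a smooth CR structure of hypersurface type on the open set `U ⊆ ℝ^{2n+1}`: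
a smooth complex subbundle of rank `n` of the complexified tangent bundle with
`T10 ∩ conj T10 = 0`, closed under Lie brackets. -/
structure IsCRStructure (n : ℕ) (U : Set (Fin (2 * n + 1) → ℝ))
    (T10 : (Fin (2 * n + 1) → ℝ) → Submodule ℂ (Fin (2 * n + 1) → ℂ)) : Prop where
  isOpen : IsOpen U
  rank : ∀ x ∈ U, Module.finrank ℂ (T10 x) = n
  inter_conj : ∀ x ∈ U, ∀ v ∈ T10 x, (fun i => (starRingEnd ℂ) (v i)) ∈ T10 x → v = 0
  smooth : ∀ x ∈ U, ∃ V, IsOpen V ∧ x ∈ V ∧ V ⊆ U ∧ ∃ K : Fin n → VField (2 * n + 1),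
    (∀ j, ContDiffOn ℝ ∞ (K j) V) ∧
      ∀ y ∈ V, T10 y = Submodule.span ℂ (Set.range fun j => K j y)
  integrable : ∀ V, IsOpen V → V ⊆ U → ∀ X Y, IsField10 T10 V X → IsField10 T10 V Y →
    ∀ x ∈ V, bracket X Y x ∈ T10 x

/-- `η` is a smooth nonvanishing real one form on `U` annihilating `T10` (and hence, being real,
also the conjugate bundle `T01`) -/
structure IsContactForm {d : ℕ} (U : Set (Fin d → ℝ))
    (T10 : (Fin d → ℝ) → Submodule ℂ (Fin d → ℂ)) (η : (Fin d → ℝ) → Fin d → ℝ) : Prop where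
  smooth : ContDiffOn ℝ ∞ η U
  ne_zero : ∀ x ∈ U, η x ≠ 0
  annihilates : ∀ x ∈ U, ∀ v ∈ T10 x, ∑ i, (η x i : ℂ) * v i = 0

/-- the Levi form `λ(X, X̄) = ⟨η, [X, X̄]⟩` of a field -/
noncomputable def levi {d : ℕ} (η : (Fin d → ℝ) → Fin d → ℝ) (X : VField d) : (Fin d → ℝ) → ℂ :=
  pairing η (bracket X (conjField X))

/-- pseudoconvexity: `η` can be chosen so that the Levi form (normalised by the constant factor
`i`, which makes it Hermitian) is positive semidefinite at every point -/
def IsPseudoconvex {d : ℕ} (U : Set (Fin d → ℝ))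
    (T10 : (Fin d → ℝ) → Submodule ℂ (Fin d → ℂ)) : Prop :=
  ∃ η : (Fin d → ℝ) → Fin d → ℝ, IsContactForm U T10 η ∧
    ∀ V, IsOpen V → V ⊆ U → ∀ X, IsField10 T10 V X →
      ∀ x ∈ V, 0 ≤ (Complex.I * levi η X x).re

/-- `L` (for `true`) or `L̄` (for `false`) -/
noncomputable def letter {d : ℕ} (L : VField d) : Bool → VField d
  | true => L
  | false => conjField L

/-- the iterated bracket `[X_k, [X_{k-1}, …, [X_2, X_1] … ]]` for the list `X_k, …, X_1` -/
noncomputable def iterBracket {d : ℕ} (L : VField d) : List Bool → VField d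
  | [] => 0
  | [a] => letter L a
  | b :: a :: w => bracket (letter L b) (iterBracket L (a :: w))

/-- the iterated derivative `Y_1 Y_2 ⋯ Y_m f` for the list `Y_1, …, Y_m` -/
noncomputable def iterDer {d : ℕ} (L : VField d) : List Bool → ((Fin d → ℝ) → ℂ) →
    ((Fin d → ℝ) → ℂ)
  | [], f => f
  | a :: w, f => der (letter L a) (iterDer L w f)

/-- the commutator type `t(L, p) ∈ {2, 3, …, ∞}` -/
noncomputable def commutatorType {d : ℕ} (η : (Fin d → ℝ) → Fin d → ℝ) (L : VField d)
    (p : Fin d → ℝ) : ℕ∞ :=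
  sInf {k : ℕ∞ | ∃ w : List Bool, 2 ≤ w.length ∧ ((w.length : ℕ) : ℕ∞) = k ∧
    pairing η (iterBracket L w) p ≠ 0}

/-- the Levi form type `c(L, p) ∈ {2, 3, …, ∞}` -/
noncomputable def leviType {d : ℕ} (η : (Fin d → ℝ) → Fin d → ℝ) (L : VField d)
    (p : Fin d → ℝ) : ℕ∞ :=
  sInf {k : ℕ∞ | ∃ w : List Bool, ((2 + w.length : ℕ) : ℕ∞) = k ∧
    iterDer L w (levi η L) p ≠ 0}

lemma iterBracket_eq {d : ℕ} (L : VField d) : ∀ w : List Bool,
    iterBracket L w = DAng.brVF L w
  | [] => rfl
  | [a] => by cases a <;> rfl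
  | b :: a :: w => by
    show bracket (letter L b) (iterBracket L (a :: w)) =
      DAng.lieBr (DAng.LX L b) (DAng.brVF L (a :: w))
    rw [iterBracket_eq L (a :: w)]
    cases b <;> rfl

lemma op_append {d : ℕ} (L : VField d) (a : Bool) : ∀ (w : List Bool) (f : (Fin d → ℝ) → ℂ),
    DAng.op L (w ++ [a]) f = DAng.act (DAng.LX L a) (DAng.op L w f)
  | [], _ => rfl
  | b :: w, f => op_append L a w (DAng.act (DAng.LX L b) f)

lemma iterDer_eq {d : ℕ} (L : VField d) (f : (Fin d → ℝ) → ℂ) : ∀ w : List Bool,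
    iterDer L w f = DAng.op L w.reverse f
  | [] => rfl
  | a :: w => by
    rw [List.reverse_cons, op_append, ← iterDer_eq L f w]
    cases a <;> rfl

lemma leviType_eq {d : ℕ} (η : (Fin d → ℝ) → Fin d → ℝ) (L : VField d) (p : Fin d → ℝ) :
    leviType η L p = DAng.cType η L p := by
  unfold leviType DAng.cType
  congr 1
  ext k
  constructor
  · rintro ⟨w, hk, hw⟩
    refine ⟨w.reverse, ?_, ?_⟩
    · rw [← hk, List.length_reverse, add_comm]
    · rw [iterDer_eq] at hw; exact hw
  · rintro ⟨w, hk, hw⟩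
    refine ⟨w.reverse, ?_, ?_⟩
    · rw [← hk, List.length_reverse, add_comm]
    · rw [iterDer_eq, List.reverse_reverse]; exact hw

lemma commutatorType_eq {d : ℕ} (η : (Fin d → ℝ) → Fin d → ℝ) (L : VField d) (p : Fin d → ℝ) :
    commutatorType η L p = DAng.tType η L p := by
  unfold commutatorType DAng.tType
  simp only [iterBracket_eq]
  rfl

/-- **D'Angelo's conjecture.** For every pseudoconvex CR structure of hypersurface type, every
point `p` and every smooth (1,0) vector field `L` near `p`, the commutator type equals the Levi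
form type. -/
theorem result : ∀ (n : ℕ) (U : Set (Fin (2 * n + 1) → ℝ))
    (T10 : (Fin (2 * n + 1) → ℝ) → Submodule ℂ (Fin (2 * n + 1) → ℂ)),
    IsCRStructure n U T10 → IsPseudoconvex U T10 →
    ∀ η : (Fin (2 * n + 1) → ℝ) → Fin (2 * n + 1) → ℝ, IsContactForm U T10 η →
    ∀ p ∈ U, ∀ V : Set (Fin (2 * n + 1) → ℝ), IsOpen V → p ∈ V → V ⊆ U →
    ∀ L : VField (2 * n + 1), IsField10 T10 V L →
      commutatorType η L p = leviType η L p := by
  intro n U T10 hCR hps η hη p hp V hV hpV hVU L hL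
  rw [commutatorType_eq, leviType_eq]
  have h1 : DAng.IsCR n U T10 :=
    ⟨hCR.isOpen, hCR.rank, hCR.inter_conj, hCR.smooth, hCR.integrable⟩
  have h2 : DAng.IsPseudoconvex U T10 := by
    obtain ⟨η0, h0, h0'⟩ := hps
    exact ⟨η0, ⟨h0.smooth, h0.ne_zero, h0.annihilates⟩, h0'⟩
  exact DAng.types_eq h1 h2 ⟨hη.smooth, hη.ne_zero, hη.annihilates⟩ hp hV hpV hVU hL

end Pool.Agent.Results.MP_1b6414_an.TypesAgree
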